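import Pool.Agent.helper27.PC3.Fin8

/-!
# MP_405bd9_al: the polynomial of a positive class lies in `ℕ[v⁴]`
-/

namespace Pool.Agent.helper45.FPB

open Module Polynomial Pool.Agent.helper27.PC

/-- the Laurent polynomial lies in `ℕ[v⁴]` -/
def NatPoly4 (p : A) : Prop :=
  ∀ k : ℤ, 0 ≤ p.coeff k ∧ (p.coeff k ≠ 0 → ∃ j : ℕ, k = 4 * (j : ℤ))

theorem eval_neg_one_le (P : ℤ[X]) (hP : ∀ k, 0 ≤ P.coeff k) (m : ℕ) (hm : Odd m) :
    P.eval (-1) + 2 * P.coeff m ≤ P.eval 1 := by
  rw [eval_eq_sum_range, eval_eq_sum_range]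
  by_cases h : m ∈ Finset.range (P.natDegree + 1)
  · rw [← Finset.add_sum_erase _ _ h, ← Finset.add_sum_erase _ (fun i => P.coeff i * 1 ^ i) h]
    have h1 : ∑ i ∈ (Finset.range (P.natDegree + 1)).erase m, P.coeff i * (-1) ^ i ≤
        ∑ i ∈ (Finset.range (P.natDegree + 1)).erase m, P.coeff i * 1 ^ i := by
      apply Finset.sum_le_sum
      intro i _
      have := hP i
      rw [one_pow]
      rcases neg_one_pow_eq_or ℤ i with e | e <;> rw [e] <;> linarith
    rw [hm.neg_one_pow, one_pow]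
    linarith
  · have h0 : P.coeff m = 0 := by
      apply coeff_eq_zero_of_natDegree_lt
      rw [Finset.mem_range] at h
      omega
    rw [h0]
    have h1 : ∑ i ∈ Finset.range (P.natDegree + 1), P.coeff i * (-1) ^ i ≤
        ∑ i ∈ Finset.range (P.natDegree + 1), P.coeff i * 1 ^ i := by
      apply Finset.sum_le_sum
      intro i _
      have := hP i
      rw [one_pow]
      rcases neg_one_pow_eq_or ℤ i with e | e <;> rw [e] <;> linarith
    linarith

theorem odd_zero (P : ℤ[X]) (hP : ∀ k, 0 ≤ P.coeff k) (h : P.eval 1 ≤ P.eval (-1)) (m : ℕ)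
    (hm : Odd m) : P.coeff m = 0 := by
  have h1 := eval_neg_one_le P hP m hm
  have h2 := hP m
  linarith

theorem natPoly4_of {N : A} {P : ℤ[X]} {c : ℕ} (hc : 0 < c) (hP : ∀ k, 0 ≤ P.coeff k)
    (ho : ∀ m, Odd m → P.coeff m = 0) (h : (c : A) * N = aeval (v ^ 2) P) : NatPoly4 N := by
  have hN := natPoly_of_nonneg hc hP h
  intro k
  refine ⟨(hN k).1, fun hk => ?_⟩
  obtain ⟨j, rfl⟩ := (hN k).2 hk
  rcases Nat.even_or_odd' j with ⟨i, hi | hi⟩
  · exact ⟨i, by rw [hi]; push_cast; ring⟩
  · exfalso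
    apply hk
    have h1 : ((c : A) * N) = (c : ℕ) • N := by rw [nsmul_eq_mul]
    have h2 : (c : ℤ) * N.coeff (2 * (j : ℤ)) = P.coeff j := by
      rw [← aeval_v_coeff P j, ← h, h1, AddMonoidAlgebra.coeff_smul, Finsupp.smul_apply, nsmul_eq_mul]
    rw [ho j ⟨i, hi⟩] at h2
    rcases mul_eq_zero.1 h2 with h3 | h3
    · have : (0 : ℤ) < c := by exact_mod_cast hc
      omega
    · exact h3

theorem glen_one {G ι : Type} [Group G] (s : ι → G) : glen s (1 : G) = 0 := by
  unfold glen
  apply Nat.sInf_eq_zero.2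
  left
  exact ⟨[], rfl, by simp⟩

theorem T_one {G ι : Type} [Group G] (s : ι → G) {H : Type} [Ring H] [Algebra A H] (T : Basis G A H)
    (hT : GHecke s T) : T 1 = 1 := by
  have h1 : ∀ x : H, T 1 * x = x := by
    intro x
    have h2 : LinearMap.mulLeft A (T 1) = LinearMap.id := by
      apply T.ext
      intro w
      have := hT.mul 1 w (by rw [glen_one, one_mul, zero_add])
      rw [one_mul] at this
      exact this
    exact congrArg (fun f : H →ₗ[A] H => f x) h2
  have := h1 1
  rwa [mul_one] at this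

theorem natPoly4_natCast (m : ℕ) : NatPoly4 (m : A) := by
  have e : (m : A) = aeval (v ^ 2) (C (m : ℤ)) := by
    rw [aeval_C]
    simp
  apply natPoly4_of (c := 1) one_pos (P := C (m : ℤ))
  · intro k
    rw [coeff_C]
    split_ifs
    · positivity
    · exact le_rfl
  · intro k hk
    rw [coeff_C, if_neg]
    rintro rfl
    exact absurd hk (by decide)
  · rw [Nat.cast_one, one_mul]
    exact e

theorem GN_one {G ι : Type} [Group G] [Finite G] (s : ι → G) {H : Type} [Ring H] [Algebra A H]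
    (T : Basis G A H) (hT : GHecke s T) : NatPoly4 (GN s T 1) := by
  have e : GN s T 1 = ((Module.finrank A H : ℕ) : A) := by
    unfold GN
    rw [glen_one, mul_zero, pow_zero, one_smul, inv_one, T_one s T hT]
    have h1 : LinearMap.mulLeft A (1 : H) ∘ₗ LinearMap.mulRight A (1 : H) = LinearMap.id := by
      ext x
      simp
    rw [h1]
    have := Module.Free.of_basis T
    have := Module.Finite.of_basis T
    exact LinearMap.trace_id A H
  rw [e]
  exact natPoly4_natCast _

theorem GMin_one {G ι : Type} [Group G] (s : ι → G) : GMin s (1 : G) := by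
  intro g
  rw [mul_one, mul_inv_cancel]

/-- every conjugacy class of `W(B_n)` (`n ≥ 1`) and `W(D_n)` (`n ≥ 3`) contains an element `w'` of minimal
length such that `N^{w'} ∈ ℕ[v²]` implies `N^{w'} ∈ ℕ[v⁴]` -/
theorem FP (t : Bool) (n : ℕ) (hn : if t then 1 ≤ n else 3 ≤ n) (H : Type) [Ring H] [Algebra A H]
    (T : Basis (Wty t n) A H) (hT : GHecke (genTy t n) T) (w : Wty t n) :
    ∃ w' : Wty t n, IsConj w w' ∧ GMin (genTy t n) w' ∧
      (NatPoly (GN (genTy t n) T w') → NatPoly4 (GN (genTy t n) T w')) := by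
  by_cases hw1 : w = 1
  · subst hw1
    exact ⟨1, IsConj.refl 1, GMin_one _, fun _ => GN_one _ T hT⟩
  obtain ⟨β, α, hty, hc⟩ := CLS n (w : W n)
  have hn2 : if t then 1 ≤ n else 2 ≤ n := by
    cases t
    · have h3 : 3 ≤ n := hn
      show 2 ≤ n
      omega
    · exact hn
  obtain ⟨hev, w', hw', hmin, hx⟩ := key LEN2B SIGu t n hn2 H T hT w β α hty hc
  refine ⟨w', hw', hmin, fun hnat => ?_⟩
  by_cases hα : ∃ a ∈ α, 2 ≤ a
  · obtain ⟨c, P, hc0, hcP, hneg⟩ := val2 NFB2u NFD2u DZ AAu AADu t n hn β α hty hev hα _ hx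
    have := nonneg_of_natPoly hnat hcP 1
    omega
  · have hα1 := eq_replicate_one α hty.2.2.1 hα
    set j := α.length with hj
    rw [hα1] at hty hc hx
    have hβ : β ≠ [] := by
      rintro rfl
      apply hw1
      have h1 : std2 n [] (List.replicate j 1) = 1 := by
        unfold std2 word2
        rw [posWord_ones]
        rfl
      rw [h1, isConj_comm, isConj_one_right] at hc
      exact Subtype.ext hc
    have hsum : n = β.sum + j := by
      have := hty.2.2.2
      simp at this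
      omega
    obtain ⟨c, hc0, hcP⟩ := val1 NFB2u NFD2u DZ NUu t n hn2 β j hty hev hβ _ hx
    have hnn := nonneg_of_natPoly hnat hcP
    rcases Nat.eq_zero_or_pos j with hj0 | hj1
    · rw [hj0] at hcP hnn
      have hle := (LT DLu LB LG (NZ LB LG COL) t n β hty.1 hty.2.1 (by omega)).1
      obtain ⟨e1, e2⟩ := EVu t n β 0 hty.1 (by omega)
      rw [pow_zero, Module.End.one_apply] at e1 e2
      rw [← e1, ← e2] at hle
      exact natPoly4_of hc0 hnn (odd_zero _ hnn hle) hcP
    · obtain ⟨k, hk⟩ := neg1 LG DLu (YD LG LB) (LT DLu LB LG (NZ LB LG COL)) (CO COL LG LB) EVu (ONE DLu)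
        t β j hty.1 hty.2.1 hβ hev hj1
      have := hnn k
      rw [hsum] at this
      omega

end Pool.Agent.helper45.FPB
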